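import Mathlib

/-!
MP_7dd379_ag, example, dimension: generic lemmas.
-/

namespace Pool.Agent.WFTDim

open IsLocalRing

/-- Upper bound: a Noetherian local ring in which the maximal ideal is the only prime containing the
`n` elements of `s` has dimension at most `n`. -/
theorem ringKrullDim_le_card {R : Type*} [CommRing R] [IsNoetherianRing R] [IsLocalRing R]
    (s : Finset R) (hs : ∀ x ∈ s, x ∈ maximalIdeal R)
    (h : ∀ P : Ideal R, P.IsPrime → (∀ x ∈ s, x ∈ P) → maximalIdeal R ≤ P) :
    ringKrullDim R ≤ s.card := by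
  have hmin : maximalIdeal R ∈ (Ideal.span (s : Set R)).minimalPrimes := by
    refine ⟨⟨inferInstance, Ideal.span_le.mpr fun x hx => hs x hx⟩, ?_⟩
    intro P hP _
    exact h P hP.1 fun x hx => hP.2 (Ideal.subset_span hx)
  have h1 := Ideal.height_le_card_of_mem_minimalPrimes_span_finset hmin
  rw [← IsLocalRing.maximalIdeal_height_eq_ringKrullDim]
  exact_mod_cast h1

section Kill

variable {σ k : Type*} [Field k]

open Classical in
/-- Setting the variables of `T` to zero. -/
noncomputable def kill (T : Set σ) : MvPowerSeries σ k →+* MvPowerSeries σ k where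
  toFun f := fun m => if ∀ i ∈ T, m i = 0 then MvPowerSeries.coeff m f else 0
  map_one' := by
    ext m
    show (if ∀ i ∈ T, m i = 0 then MvPowerSeries.coeff m (1 : MvPowerSeries σ k) else 0) = _
    rw [MvPowerSeries.coeff_one]
    by_cases h : m = 0
    · subst h
      simp
    · rw [if_neg h]
      simp
  map_mul' f g := by
    ext m
    show (if ∀ i ∈ T, m i = 0 then MvPowerSeries.coeff m (f * g) else 0) = _
    rw [MvPowerSeries.coeff_mul, MvPowerSeries.coeff_mul]
    by_cases h : ∀ i ∈ T, m i = 0
    · rw [if_pos h]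
      refine Finset.sum_congr rfl fun x hx => ?_
      have hx' := Finset.HasAntidiagonal.mem_antidiagonal.mp hx
      have h1 : ∀ i ∈ T, x.1 i = 0 := by
        intro i hi
        have h2 := h i hi
        rw [← hx', Finsupp.add_apply] at h2
        omega
      have h2 : ∀ i ∈ T, x.2 i = 0 := by
        intro i hi
        have h2 := h i hi
        rw [← hx', Finsupp.add_apply] at h2
        omega
      show _ = (if ∀ i ∈ T, x.1 i = 0 then MvPowerSeries.coeff x.1 f else 0)
        * (if ∀ i ∈ T, x.2 i = 0 then MvPowerSeries.coeff x.2 g else 0)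
      rw [if_pos h1, if_pos h2]
    · rw [if_neg h]
      symm
      refine Finset.sum_eq_zero fun x hx => ?_
      have hx' := Finset.HasAntidiagonal.mem_antidiagonal.mp hx
      show (if ∀ i ∈ T, x.1 i = 0 then MvPowerSeries.coeff x.1 f else 0)
        * (if ∀ i ∈ T, x.2 i = 0 then MvPowerSeries.coeff x.2 g else 0) = 0
      by_cases h1 : ∀ i ∈ T, x.1 i = 0
      · by_cases h2 : ∀ i ∈ T, x.2 i = 0
        · exfalso
          apply h
          intro i hi
          rw [← hx', Finsupp.add_apply, h1 i hi, h2 i hi]
        · rw [if_neg h2, mul_zero]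
      · rw [if_neg h1, zero_mul]
  map_zero' := by
    ext m
    show (if ∀ i ∈ T, m i = 0 then MvPowerSeries.coeff m (0 : MvPowerSeries σ k) else 0) = _
    simp
  map_add' f g := by
    ext m
    show (if ∀ i ∈ T, m i = 0 then MvPowerSeries.coeff m (f + g) else 0)
      = (if ∀ i ∈ T, m i = 0 then MvPowerSeries.coeff m f else 0)
        + (if ∀ i ∈ T, m i = 0 then MvPowerSeries.coeff m g else 0)
    split_ifs <;> simp

open Classical in
theorem coeff_kill (T : Set σ) (f : MvPowerSeries σ k) (m : σ →₀ ℕ) :
    MvPowerSeries.coeff m (kill T f) = if ∀ i ∈ T, m i = 0 then MvPowerSeries.coeff m f else 0 := rfl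

theorem kill_eq_zero_iff (T : Set σ) (f : MvPowerSeries σ k) :
    kill T f = 0 ↔ ∀ m : σ →₀ ℕ, (∀ i ∈ T, m i = 0) → MvPowerSeries.coeff m f = 0 := by
  classical
  constructor
  · intro h m hm
    have := congrArg (MvPowerSeries.coeff m) h
    rw [coeff_kill, if_pos hm] at this
    simpa using this
  · intro h
    ext m
    rw [coeff_kill]
    split_ifs with hm
    · simpa using h m hm
    · simp

/-- Lower bound: contractions of coordinate primes. -/
theorem le_ringKrullDim_of_chain {R : Type*} [CommRing R] (φ : R →+* MvPowerSeries σ k) (n : ℕ)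
    (T : ℕ → Set σ) (hT : ∀ i < n, T i ⊆ T (i + 1)) (r : ℕ → R)
    (h0 : ∀ i < n, kill (T (i + 1)) (φ (r i)) = 0) (h1 : ∀ i < n, kill (T i) (φ (r i)) ≠ 0) :
    (n : WithBot ℕ∞) ≤ ringKrullDim R := by
  classical
  let P : ℕ → PrimeSpectrum R := fun i => ⟨RingHom.ker ((kill (k := k) (T i)).comp φ), by
    haveI : IsDomain (MvPowerSeries σ k) := NoZeroDivisors.to_isDomain _
    exact RingHom.ker_isPrime _⟩
  have hmem : ∀ i f, f ∈ (P i).asIdeal ↔ kill (T i) (φ f) = 0 := fun i f => Iff.rfl
  have hlt : ∀ i < n, P i < P (i + 1) := by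
    intro i hi
    have hle : P i ≤ P (i + 1) := by
      intro f hf
      rw [hmem] at hf ⊢
      rw [kill_eq_zero_iff] at hf ⊢
      intro m hm
      exact hf m fun j hj => hm j (hT i hi hj)
    refine lt_of_le_of_ne hle ?_
    intro he
    have hm : r i ∈ (P (i + 1)).asIdeal := (hmem _ _).mpr (h0 i hi)
    rw [← he] at hm
    exact h1 i hi ((hmem _ _).mp hm)
  let c : LTSeries (PrimeSpectrum R) :=
    { length := n
      toFun := fun i => P i
      step := by
        intro i
        have := hlt i i.2
        simpa using this }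
  exact Order.LTSeries.length_le_krullDim c

end Kill

end Pool.Agent.WFTDim
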